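import Pool.Agent.J4.H42.MZ.Gap

/-!
# Growth of the dimensions
-/

set_option autoImplicit false

namespace Pool.Agent.J4.H42.MZ

open Filter Topology

lemma D_succ3 (k : ℕ) : D (k + 3) = D (k + 1) + D k := by rw [D]

lemma D_le_add_two (l : ℕ) : D l ≤ D (l + 2) := by
  match l with
  | 0 => simp [D]
  | 1 => simp [D]
  | (l + 2) =>
    have h : D (l + 1 + 3) = D (l + 1 + 1) + D (l + 1) := D_succ3 (l + 1)
    have h' : D (l + 2 + 2) = D (l + 1 + 3) := rfl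
    rw [h', h]
    exact Nat.le_add_right _ _

lemma D_pos {k : ℕ} (hk : k ≠ 1) : 0 < D k := by
  induction k using Nat.strong_induction_on with
  | _ k ih =>
    match k, ih, hk with
    | 0, _, _ => simp [D]
    | 1, _, h => exact absurd rfl h
    | 2, _, _ => simp [D]
    | (k + 3), ih, _ =>
      rw [D_succ3]
      by_cases h : k = 0
      · subst h; simp [D]
      · have := ih (k + 1) (by omega) (by omega)
        omega

/-- The plastic number. -/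
lemma exists_rho : ∃ ρ : ℝ, 1 < ρ ∧ ρ < 2 ∧ ρ ^ 3 = ρ + 1 := by
  have hc : ContinuousOn (fun x : ℝ => x ^ 3 - x - 1) (Set.Icc 1 2) := by fun_prop
  have h := intermediate_value_Ioo (by norm_num : (1 : ℝ) ≤ 2) hc
  have h0 : (0 : ℝ) ∈ Set.Ioo ((fun x : ℝ => x ^ 3 - x - 1) 1) ((fun x : ℝ => x ^ 3 - x - 1) 2) := by
    constructor <;> norm_num
  obtain ⟨ρ, hρ, h1⟩ := h h0
  refine ⟨ρ, hρ.1, hρ.2, ?_⟩
  have h2 : ρ ^ 3 - ρ - 1 = 0 := h1
  linarith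

section

variable {ρ : ℝ} (h1 : 1 < ρ) (h2 : ρ < 2) (h3 : ρ ^ 3 = ρ + 1)

include h1 h3

lemma D_energy (k : ℕ) : (D (k + 2) : ℝ) + ρ * D (k + 1) + ρ⁻¹ * D k = ρ ^ (k + 2) := by
  have h0 : ρ ≠ 0 := by linarith
  have h4 : ρ⁻¹ = ρ ^ 2 - 1 := by
    field_simp
    linarith
  induction k with
  | zero =>
    simp [D]
    rw [h4]; ring
  | succ k ih =>
    have e : (D (k + 1 + 2) : ℝ) = D (k + 1) + D k := by
      have : D (k + 1 + 2) = D (k + 1) + D k := D_succ3 k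
      exact_mod_cast this
    have e2 : k + 1 + 1 = k + 2 := rfl
    rw [e, e2]
    have e3 : ρ ^ (k + 1 + 2) = ρ * ρ ^ (k + 2) := by ring
    rw [e3, ← ih, h4]
    have e4 : ρ * ((D (k + 2) : ℝ) + ρ * D (k + 1) + (ρ ^ 2 - 1) * D k) =
      ρ * D (k + 2) + ρ ^ 2 * D (k + 1) + (ρ ^ 3 - ρ) * D k := by ring
    rw [e4, h3]; ring

include h2

lemma D_tendsto : Tendsto (fun k => (D k : ℝ) / ρ ^ k) atTop (𝓝 ((ρ + 1) / (2 * ρ + 3))) := by
  have h0 : 0 < ρ := by linarith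
  have h4 : ρ⁻¹ = ρ ^ 2 - 1 := by
    field_simp
    linarith
  set C : ℝ := (ρ + 1) / (2 * ρ + 3) with hC
  have hCeq : C * (ρ ^ 2 + ρ ^ 2 + (ρ ^ 2 - 1)) = ρ ^ 2 := by
    rw [hC]
    have : (2 * ρ + 3) ≠ 0 := by linarith
    field_simp
    nlinarith [h3]
  set ε : ℕ → ℝ := fun k => (D k : ℝ) - C * ρ ^ k with hε
  have hrec : ∀ k, ε (k + 2) = -ρ * ε (k + 1) - (ρ ^ 2 - 1) * ε k := by
    intro k
    have := D_energy h1 h3 k
    rw [h4] at this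
    simp only [hε]
    have e1 : ρ ^ (k + 2) = ρ ^ 2 * ρ ^ k := by ring
    have e2 : ρ ^ (k + 1) = ρ * ρ ^ k := by ring
    rw [e1] at this ⊢
    rw [e2]
    have h5 : C * (ρ ^ 2 + ρ ^ 2 + (ρ ^ 2 - 1)) * ρ ^ k = ρ ^ 2 * ρ ^ k := by rw [hCeq]
    nlinarith [this, h5]
  set Q : ℕ → ℝ := fun k => ε (k + 1) ^ 2 + ρ * ε (k + 1) * ε k + (ρ ^ 2 - 1) * ε k ^ 2 with hQ
  have hQrec : ∀ k, Q (k + 1) = (ρ ^ 2 - 1) * Q k := by
    intro k
    simp only [hQ]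
    have e : k + 1 + 1 = k + 2 := rfl
    rw [e, hrec k]
    ring
  have hq : 0 < ρ ^ 2 - 1 := by nlinarith
  have hq1 : ρ ^ 2 - 1 < 1 := by
    rw [← h4]
    exact inv_lt_one_of_one_lt₀ h1
  have hQk : ∀ k, Q k = (ρ ^ 2 - 1) ^ k * Q 0 := by
    intro k
    induction k with
    | zero => simp
    | succ k ih => rw [hQrec, ih]; ring
  have hpos : 0 < (ρ ^ 2 - 1) - ρ ^ 2 / 4 := by
    have h6 : ρ * ((ρ ^ 2 - 1) - ρ ^ 2 / 4) = 1 - (ρ + 1) / 4 := by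
      have : ρ * ((ρ ^ 2 - 1) - ρ ^ 2 / 4) = (ρ ^ 3 - ρ) - ρ ^ 3 / 4 := by ring
      rw [this, h3]; ring
    by_contra hneg
    push Not at hneg
    nlinarith
  have hb : ∀ k, ((ρ ^ 2 - 1) - ρ ^ 2 / 4) * ε k ^ 2 ≤ Q k := by
    intro k
    simp only [hQ]
    nlinarith [sq_nonneg (ε (k + 1) + ρ * ε k / 2)]
  have hlim : Tendsto (fun k => ε k ^ 2) atTop (𝓝 0) := by
    have hl : Tendsto (fun k => (ρ ^ 2 - 1) ^ k * Q 0 / ((ρ ^ 2 - 1) - ρ ^ 2 / 4)) atTop (𝓝 0) := by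
      have := (tendsto_pow_atTop_nhds_zero_of_lt_one hq.le hq1).mul_const
        (Q 0 / ((ρ ^ 2 - 1) - ρ ^ 2 / 4))
      simpa [mul_div_assoc] using this
    refine squeeze_zero (fun k => sq_nonneg _) (fun k => ?_) hl
    rw [le_div_iff₀ hpos, ← hQk k]
    nlinarith [hb k]
  have hlim2 : Tendsto (fun k => ε k / ρ ^ k) atTop (𝓝 0) := by
    have h7 : Tendsto (fun k => |ε k|) atTop (𝓝 0) := by
      have := hlim.sqrt
      simpa [Real.sqrt_sq_eq_abs] using this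
    refine squeeze_zero_norm (fun k => ?_) h7
    rw [Real.norm_eq_abs, abs_div, abs_of_pos (pow_pos h0 k)]
    exact div_le_self (abs_nonneg _) (one_le_pow₀ h1.le)
  have h8 : (fun k => (D k : ℝ) / ρ ^ k) = fun k => ε k / ρ ^ k + C := by
    funext k
    have : ρ ^ k ≠ 0 := (pow_pos h0 k).ne'
    simp only [hε]
    field_simp
    ring
  rw [h8]
  simpa using hlim2.add_const C

/-- `D (k - e) / D k → ρ ^ (-e)`. -/
lemma D_ratio (e : ℕ) : Tendsto (fun k => (D k : ℝ) / D (k + e)) atTop (𝓝 ((ρ ^ e)⁻¹)) := by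
  have h0 : 0 < ρ := by linarith
  have hC : (ρ + 1) / (2 * ρ + 3) ≠ 0 := by positivity
  have ht := D_tendsto h1 h2 h3
  have ht' := (tendsto_add_atTop_iff_nat e).2 ht
  have h4 := ht.div ht' hC
  rw [div_self hC] at h4
  have h5 := h4.mul_const ((ρ ^ e)⁻¹)
  rw [one_mul] at h5
  refine h5.congr fun k => ?_
  have hk : ρ ^ k ≠ 0 := (pow_pos h0 k).ne'
  have he : ρ ^ e ≠ 0 := (pow_pos h0 e).ne'
  simp only [Pi.div_apply]
  rw [pow_add]
  by_cases hD : (D (k + e) : ℝ) = 0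
  · rw [hD]; simp
  · field_simp

end

end Pool.Agent.J4.H42.MZ
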