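import Pool.Agent.J4.H42.MZ.Shuf

/-!
# The dimensions of the graded pieces
-/

set_option autoImplicit false

namespace Pool.Agent.J4.H42.MZ

/-- `D k = dim H_k`. -/
def D : ℕ → ℕ
  | 0 => 1
  | 1 => 0
  | 2 => 1
  | (k + 3) => D (k + 1) + D k

/-- multiplication by `π²` on monomials -/
def e1 : (ℕ × List ℕ) ↪ (ℕ × List ℕ) := ⟨fun p => (p.1 + 1, p.2), by
  rintro ⟨m, u⟩ ⟨n, v⟩ h
  simp only [Prod.mk.injEq, add_left_inj] at h
  exact Prod.ext h.1 h.2⟩

/-- the power of `π²` becomes the first letter -/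
def e2 : (ℕ × List ℕ) ↪ (ℕ × List ℕ) := ⟨fun p => (0, p.1 :: p.2), by
  rintro ⟨m, u⟩ ⟨n, v⟩ h
  simp only [Prod.mk.injEq, List.cons.injEq, true_and] at h
  exact Prod.ext h.1 h.2⟩

lemma wt_e1 (q : ℕ × List ℕ) : wt (e1 q) = wt q + 2 := by
  change 2 * (q.1 + 1) + wl q.2 = 2 * q.1 + wl q.2 + 2
  omega

lemma wt_e2 (q : ℕ × List ℕ) : wt (e2 q) = wt q + 3 := by
  change 2 * 0 + wl (q.1 :: q.2) = 2 * q.1 + wl q.2 + 3
  rw [wl_cons]; omega

/-- The monomials of weight `k`. -/
def mon : ℕ → Finset (ℕ × List ℕ)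
  | 0 => {(0, [])}
  | 1 => ∅
  | 2 => {(1, [])}
  | (k + 3) => (mon (k + 1)).map e1 ∪ (mon k).map e2

lemma mem_mon (k : ℕ) (p : ℕ × List ℕ) : p ∈ mon k ↔ wt p = k := by
  induction k using Nat.strong_induction_on generalizing p with
  | _ k ih =>
    obtain ⟨m, u⟩ := p
    match k, ih with
    | 0, _ =>
      unfold mon wt
      cases u with
      | nil => simp
      | cons a u => simp
    | 1, _ =>
      unfold mon wt
      cases u with
      | nil => simp
      | cons a u => simp; omega
    | 2, _ =>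
      unfold mon wt
      cases u with
      | nil => simp
      | cons a u => simp; omega
    | (k + 3), ih =>
      have h1 := ih (k + 1) (by omega)
      have h0 := ih k (by omega)
      unfold mon
      rw [Finset.mem_union, Finset.mem_map, Finset.mem_map]
      constructor
      · rintro (⟨q, hq, he⟩ | ⟨q, hq, he⟩)
        · rw [h1] at hq
          rw [← he, wt_e1, hq]
        · rw [h0] at hq
          rw [← he, wt_e2, hq]
      · intro h
        unfold wt at h
        simp only at h
        cases m with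
        | zero =>
          cases u with
          | nil => simp at h
          | cons a u =>
            right
            refine ⟨(a, u), (h0 _).2 ?_, rfl⟩
            unfold wt
            simp only [wl_cons] at h ⊢
            omega
        | succ m =>
          left
          refine ⟨(m, u), (h1 _).2 ?_, rfl⟩
          unfold wt
          simp only
          omega

lemma card_mon (k : ℕ) : (mon k).card = D k := by
  induction k using Nat.strong_induction_on with
  | _ k ih =>
    match k, ih with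
    | 0, _ => rfl
    | 1, _ => rfl
    | 2, _ => rfl
    | (k + 3), ih =>
      unfold mon D
      rw [Finset.card_union_of_disjoint, Finset.card_map, Finset.card_map, ih _ (by omega),
        ih _ (by omega)]
      rw [Finset.disjoint_left]
      rintro p h1 h2
      obtain ⟨q, _, rfl⟩ := Finset.mem_map.1 h1
      obtain ⟨q', _, h⟩ := Finset.mem_map.1 h2
      have h' : (0 : ℕ) = q.1 + 1 := congrArg Prod.fst h
      omega

lemma Hk_eq (k : ℕ) : Hk k = Finsupp.supported ℚ ℚ (↑(mon k) : Set (ℕ × List ℕ)) := by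
  unfold Hk
  congr 1
  ext p
  simp [mem_mon]

/-- the basis of `Hk k` given by the monomials -/
noncomputable def HkEquiv (k : ℕ) : Hk k ≃ₗ[ℚ] (↥(mon k) →₀ ℚ) :=
  (LinearEquiv.ofEq _ _ (Hk_eq k)).trans (Finsupp.supportedEquivFinsupp _)

instance (k : ℕ) : FiniteDimensional ℚ (Hk k) :=
  Module.Finite.equiv (HkEquiv k).symm

lemma finrank_Hk (k : ℕ) : Module.finrank ℚ (Hk k) = D k := by
  rw [(HkEquiv k).finrank_eq, Module.finrank_finsupp_self, Fintype.card_coe, card_mon]

/-! ### the part without `π²` -/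

/-- The words of weight `w`, without `π²`. -/
noncomputable def Wk (w : ℕ) : Submodule ℚ HH := Finsupp.supported ℚ ℚ {p | p.1 = 0 ∧ wt p = w}

lemma Wk_le (w : ℕ) : Wk w ≤ Hk w := Finsupp.supported_mono fun _ h => h.2

lemma Wk_eq (k : ℕ) : Wk (k + 3) =
    Finsupp.supported ℚ ℚ (↑((mon k).map e2) : Set (ℕ × List ℕ)) := by
  unfold Wk
  congr 1
  ext p
  simp only [Set.mem_ofPred_eq, Finset.coe_map, Set.mem_image, Finset.mem_coe]
  constructor
  · rintro ⟨h1, h2⟩
    obtain ⟨m, u⟩ := p
    simp only at h1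
    subst h1
    cases u with
    | nil => simp [wt] at h2
    | cons a u =>
      refine ⟨(a, u), (mem_mon _ _).2 ?_, rfl⟩
      unfold wt at h2 ⊢
      simp only [wl_cons] at h2 ⊢
      omega
  · rintro ⟨q, h, rfl⟩
    rw [mem_mon] at h
    exact ⟨rfl, by rw [wt_e2, h]⟩

instance (k : ℕ) : FiniteDimensional ℚ (Wk k) :=
  Submodule.finiteDimensional_of_le (Wk_le k)

lemma finrank_Wk (k : ℕ) : Module.finrank ℚ (Wk (k + 3)) = D k := by
  rw [Wk_eq, (Finsupp.supportedEquivFinsupp
    (↑((mon k).map e2) : Set (ℕ × List ℕ)) : _ ≃ₗ[ℚ] (_ →₀ ℚ)).finrank_eq]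
  have : Module.finrank ℚ (↥((mon k).map e2) →₀ ℚ) = D k := by
    rw [Module.finrank_finsupp_self, Fintype.card_coe, Finset.card_map, card_mon]
  exact this

lemma finrank_Wk_zero : Module.finrank ℚ (Wk 0) = 1 := by
  have h : Wk 0 = Finsupp.supported ℚ ℚ ({(0, [])} : Set (ℕ × List ℕ)) := by
    unfold Wk
    congr 1
    ext ⟨m, u⟩
    simp only [Set.mem_ofPred_eq, Set.mem_singleton_iff, Prod.mk.injEq]
    cases u with
    | nil => simp [wt]
    | cons a u => simp [wt]
  rw [h, (Finsupp.supportedEquivFinsupp ({(0, [])} : Set (ℕ × List ℕ)) :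
    _ ≃ₗ[ℚ] (_ →₀ ℚ)).finrank_eq, Module.finrank_finsupp_self]
  simp

end Pool.Agent.J4.H42.MZ
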