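import Pool.Agent.J4.H42.MZ.Dim

/-!
# The kernel of a surjection of graded algebras
-/

set_option autoImplicit false

namespace Pool.Agent.J4.H42.MZ

open Module

/-- Two linear maps with independent images. -/
lemma two_maps {V : Type*} [AddCommGroup V] [Module ℚ V] (A B C : Submodule ℚ V)
    [FiniteDimensional ℚ A] [FiniteDimensional ℚ B] [FiniteDimensional ℚ C] (a b : V →ₗ[ℚ] V)
    (hA : ∀ h ∈ A, a h ∈ C) (hB : ∀ g ∈ B, b g ∈ C)
    (hinj : ∀ h ∈ A, ∀ g ∈ B, a h + b g = 0 → h = 0 ∧ g = 0) :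
    finrank ℚ A + finrank ℚ B ≤ finrank ℚ C := by
  rw [← Module.finrank_prod]
  let F : (A × B) →ₗ[ℚ] C := LinearMap.codRestrict C
    (LinearMap.coprod (a.comp A.subtype) (b.comp B.subtype))
    (fun p => C.add_mem (hA p.1 p.1.2) (hB p.2 p.2.2))
  refine LinearMap.finrank_le_finrank_of_injective (f := F) ?_
  rw [← LinearMap.ker_eq_bot, LinearMap.ker_eq_bot']
  rintro ⟨h, g⟩ hhg
  have h1 : a h + b g = 0 := congrArg Subtype.val hhg
  obtain ⟨h2, h3⟩ := hinj h h.2 g g.2 h1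
  exact Prod.ext (Subtype.ext h2) (Subtype.ext h3)

lemma one_map {V : Type*} [AddCommGroup V] [Module ℚ V] (A C : Submodule ℚ V)
    [FiniteDimensional ℚ C] (a : V →ₗ[ℚ] V) (hA : ∀ h ∈ A, a h ∈ C)
    (hinj : ∀ h ∈ A, a h = 0 → h = 0) : finrank ℚ A ≤ finrank ℚ C := by
  let F : A →ₗ[ℚ] C := LinearMap.codRestrict C (a.comp A.subtype) (fun p => hA p p.2)
  refine LinearMap.finrank_le_finrank_of_injective (f := F) ?_
  rw [← LinearMap.ker_eq_bot, LinearMap.ker_eq_bot']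
  intro h hh
  exact Subtype.ext (hinj h h.2 (congrArg Subtype.val hh))

/-- `ψ : H → ℝ` is a homomorphism of algebras which maps `H_w` onto `Z_w` for all `w`: this is the
same as a surjective homomorphism of graded algebras from `H` to the external direct sum of the
spaces `Z_w` of real numbers. -/
structure IsSurjection (Z : ℕ → Submodule ℚ ℝ) (ψ : HH →ₗ[ℚ] ℝ) : Prop where
  one : ψ (Finsupp.single (0, []) 1) = 1
  mul : ∀ f g : HH, ψ (mulH f g) = ψ f * ψ g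
  map : ∀ w, (Hk w).map ψ = Z w

/-- Multiplication by a fixed element on the right. -/
noncomputable def mulR (g : HH) : HH →ₗ[ℚ] HH where
  toFun f := mulH f g
  map_add' _ _ := mulH_add_left _ _ _
  map_smul' _ _ := mulH_smul_left _ _ _

lemma mulR_apply (g f : HH) : mulR g f = mulH f g := rfl

lemma zero_mulH (g : HH) : mulH 0 g = 0 := (mulR g).map_zero

lemma mulTo_mem {a b n : ℕ} (hn : a + b = n) {f g : HH} (hf : f ∈ Hk a) (hg : g ∈ Hk b) :
    mulH f g ∈ Hk n := by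
  subst hn
  exact mulH_mem hf hg

section

variable {Z : ℕ → Submodule ℚ ℝ} {ψ : HH →ₗ[ℚ] ℝ}

/-- the kernel -/
noncomputable def Ik (ψ : HH →ₗ[ℚ] ℝ) (w : ℕ) : Submodule ℚ HH := Hk w ⊓ LinearMap.ker ψ

lemma mem_Ik {w : ℕ} {f : HH} : f ∈ Ik ψ w ↔ f ∈ Hk w ∧ ψ f = 0 := by
  unfold Ik
  rw [Submodule.mem_inf, LinearMap.mem_ker]

lemma Ik_le (w : ℕ) : Ik ψ w ≤ Hk w := inf_le_left

instance (w : ℕ) : FiniteDimensional ℚ (Ik ψ w) :=
  Submodule.finiteDimensional_of_le (Ik_le w)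

/-- the dimension of the kernel -/
noncomputable def ii (ψ : HH →ₗ[ℚ] ℝ) (w : ℕ) : ℕ := finrank ℚ (Ik ψ w)

/-- Rank and nullity on a subspace. -/
lemma rank_nullity {V W : Type*} [AddCommGroup V] [Module ℚ V] [AddCommGroup W] [Module ℚ W]
    (A : Submodule ℚ V) [FiniteDimensional ℚ A] (f : V →ₗ[ℚ] W) :
    finrank ℚ (A.map f) + finrank ℚ (A ⊓ LinearMap.ker f : Submodule ℚ V) = finrank ℚ A := by
  have h := LinearMap.finrank_range_add_finrank_ker (f.comp A.subtype)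
  have h1 : LinearMap.range (f.comp A.subtype) = A.map f := by
    rw [LinearMap.range_comp, Submodule.range_subtype]
  have h2 : (LinearMap.ker (f.comp A.subtype)).map A.subtype = A ⊓ LinearMap.ker f := by
    ext x
    rw [Submodule.mem_map, Submodule.mem_inf]
    constructor
    · rintro ⟨y, hy, rfl⟩
      exact ⟨y.2, hy⟩
    · rintro ⟨hx, hx2⟩
      exact ⟨⟨x, hx⟩, hx2, rfl⟩
  rw [← h1, ← h2, Submodule.finrank_map_subtype_eq]
  exact h

lemma IsSurjection.finite (hψ : IsSurjection Z ψ) (w : ℕ) : FiniteDimensional ℚ (Z w) := by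
  rw [← hψ.map w]
  infer_instance

lemma IsSurjection.add_eq (hψ : IsSurjection Z ψ) (w : ℕ) : finrank ℚ (Z w) + ii ψ w = D w := by
  rw [← hψ.map w, ← finrank_Hk]
  exact rank_nullity (Hk w) ψ

lemma IsSurjection.ker_left (hψ : IsSurjection Z ψ) {a b n : ℕ} (hn : a + b = n) {f g : HH}
    (hf : f ∈ Ik ψ a) (hg : g ∈ Hk b) : mulH f g ∈ Ik ψ n := by
  obtain ⟨h1, h2⟩ := mem_Ik.1 hf
  refine mem_Ik.2 ⟨mulTo_mem hn h1 hg, ?_⟩
  rw [hψ.mul, h2, zero_mul]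

lemma IsSurjection.ker_right (hψ : IsSurjection Z ψ) {a b n : ℕ} (hn : a + b = n) {f g : HH}
    (hf : f ∈ Hk a) (hg : g ∈ Ik ψ b) : mulH f g ∈ Ik ψ n := by
  obtain ⟨h1, h2⟩ := mem_Ik.1 hg
  refine mem_Ik.2 ⟨mulTo_mem hn hf h1, ?_⟩
  rw [hψ.mul, h2, mul_zero]

/-- The space spanned by the monomials of weight `j` with `ν = 0`. -/
noncomputable def Uk (ν : ℕ × List ℕ → ℕ) (j : ℕ) : Submodule ℚ HH :=
  Finsupp.supported ℚ ℚ {p | ν p = 0 ∧ wt p = j}

lemma Uk_le (ν : ℕ × List ℕ → ℕ) (j : ℕ) : Uk ν j ≤ Hk j := Finsupp.supported_mono fun _ h => h.2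

instance (ν : ℕ × List ℕ → ℕ) (j : ℕ) : FiniteDimensional ℚ (Uk ν j) :=
  Submodule.finiteDimensional_of_le (Uk_le ν j)

/-- One relation gives many. -/
theorem gap_one (hψ : IsSurjection Z ψ) {e : ℕ} {r : HH} (hr : r ∈ Ik ψ e)
    (hr0 : r ≠ 0) (j : ℕ) : D j ≤ ii ψ (j + e) := by
  rw [← finrank_Hk]
  refine one_map _ _ (mulR r) (fun h hh => hψ.ker_right rfl hh hr) fun h hh h0 => ?_
  by_contra hne
  exact mulH_ne_zero hh (Ik_le e hr) hne hr0 h0

/-- Multiplication by a nonzero element of `H_w`. -/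
theorem mono_ii (hψ : IsSurjection Z ψ) {w : ℕ} {x : HH} (hx : x ∈ Hk w) (hx0 : x ≠ 0) (k : ℕ) :
    ii ψ k ≤ ii ψ (k + w) := by
  refine one_map _ _ (mulR x) (fun h hh => hψ.ker_left rfl hh hx) fun h hh h0 => ?_
  by_contra hne
  exact mulH_ne_zero (Ik_le k hh) hx hne hx0 h0

/-- **Growth of the kernel.** -/
theorem growth (hψ : IsSurjection Z ψ) (ν : ℕ × List ℕ → ℕ)
    (hν : ∀ (p q : ℕ × List ℕ) (W : List ℕ), IsMerge p.2 q.2 W → ν (p.1 + q.1, W) = ν p + ν q)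
    {w : ℕ} {x : HH} (hxw : x ∈ Hk w) {px : ℕ × List ℕ} (hx : IsLead x px) (hνx : 1 ≤ ν px)
    (hI : ∃ e, ∃ r ∈ Ik ψ e, r ≠ 0) :
    ∃ e, ∀ j k, k + w = j + e → finrank ℚ (Uk ν j) + ii ψ k ≤ ii ψ (j + e) := by
  classical
  have hex : ∃ s, ∃ e, ∃ r ∈ Ik ψ e, r ≠ 0 ∧ ∃ p, IsLead r p ∧ ν p = s := by
    obtain ⟨e, r, hr, hr0⟩ := hI
    obtain ⟨p, hp⟩ := exists_lead (Ik_le e hr) hr0
    exact ⟨ν p, e, r, hr, hr0, p, hp, rfl⟩
  obtain ⟨e, r, hr, hr0, pr, hpr, hs⟩ := Nat.find_spec hex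
  have hmin : ∀ (e' : ℕ) (r' : HH), r' ∈ Ik ψ e' → r' ≠ 0 → ∀ p, IsLead r' p →
      Nat.find hex ≤ ν p := fun e' r' h1 h2 p h3 => Nat.find_min' hex ⟨e', r', h1, h2, p, h3, rfl⟩
  refine ⟨e, fun j k hk => ?_⟩
  have hx0 : x ≠ 0 := by
    intro h0
    have := hx.1
    rw [h0] at this
    simp at this
  refine two_maps _ _ _ (mulR r) (mulR x) (fun h hh => hψ.ker_right rfl (Uk_le ν j hh) hr)
    (fun g hg => hψ.ker_left hk hg hxw) ?_
  intro h hh g hg e1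
  rw [mulR_apply, mulR_apply] at e1
  by_cases hh0 : h = 0
  · refine ⟨hh0, ?_⟩
    by_contra hne
    refine mulH_ne_zero (Ik_le k hg) hxw hne hx0 ?_
    rwa [hh0, zero_mulH, zero_add] at e1
  · exfalso
    have hhk : h ∈ Hk j := Uk_le ν j hh
    obtain ⟨ph, hph⟩ := exists_lead hhk hh0
    have hνh : ν ph = 0 := ((Finsupp.mem_supported _ _).1 hh hph.1).1
    obtain ⟨W, hW⟩ := exists_merge ph.2 pr.2
    have hlead1 := lead_mul hph hpr hW
    have hne : g ≠ 0 := by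
      intro hg0
      rw [hg0, zero_mulH, add_zero] at e1
      exact mulH_ne_zero hhk (Ik_le e hr) hh0 hr0 e1
    obtain ⟨pg, hpg⟩ := exists_lead (Ik_le k hg) hne
    obtain ⟨W', hW'⟩ := exists_merge pg.2 px.2
    have hlead2 := lead_mul hpg hx hW'
    have e3 : mulH h r = -mulH g x := eq_neg_of_add_eq_zero_left e1
    have hlead3 : IsLead (mulH h r) (pg.1 + px.1, W') := by
      rw [e3]
      unfold IsLead at hlead2 ⊢
      rwa [Finsupp.support_neg]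
    have h6 := hlead1.unique hlead3
    have h7 := congrArg ν h6
    rw [hν ph pr W hW, hν pg px W' hW', hνh, hs] at h7
    have h8 := hmin k g hg hne pg hpg
    omega

end

end Pool.Agent.J4.H42.MZ
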