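import Pool.Agent.J4.H42.MZ.Sub

/-!
# The zero-one law
-/

set_option autoImplicit false

namespace Pool.Agent.J4.H42.MZ

open Filter Topology Module

/-- `n` is a composition of `k` into parts `2` and `3`. -/
def IsHoffman (k : ℕ) (n : List ℕ) : Prop := (∀ a ∈ n, a = 2 ∨ a = 3) ∧ n.sum = k

/-- The compositions of `k` into parts `2` and `3`. -/
def hof : ℕ → Finset (List ℕ)
  | 0 => {[]}
  | 1 => ∅
  | 2 => {[2]}
  | (k + 3) => (hof (k + 1)).map ⟨List.cons 2, List.cons_injective⟩ ∪
      (hof k).map ⟨List.cons 3, List.cons_injective⟩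

lemma mem_hof (k : ℕ) (n : List ℕ) : n ∈ hof k ↔ IsHoffman k n := by
  unfold IsHoffman
  induction k using Nat.strong_induction_on generalizing n with
  | _ k ih =>
    match k, ih with
    | 0, _ =>
      unfold hof
      cases n with
      | nil => simp
      | cons a n =>
        simp only [Finset.mem_singleton, List.mem_cons, forall_eq_or_imp, List.sum_cons]
        constructor
        · intro h; exact absurd h (by simp)
        · rintro ⟨⟨h, _⟩, h2⟩; omega
    | 1, _ =>
      unfold hof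
      cases n with
      | nil => simp
      | cons a n =>
        simp only [List.mem_cons, forall_eq_or_imp, List.sum_cons]
        constructor
        · intro h; exact absurd h (by simp)
        · rintro ⟨⟨h, _⟩, h2⟩; omega
    | 2, _ =>
      unfold hof
      cases n with
      | nil => simp
      | cons a n =>
        cases n with
        | nil => simp; omega
        | cons b n =>
          simp only [List.mem_cons, forall_eq_or_imp, List.sum_cons, Finset.mem_singleton]
          constructor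
          · intro h; exact absurd h (by simp)
          · rintro ⟨⟨h, h', _⟩, h2⟩; omega
    | (k + 3), ih =>
      have h1 := ih (k + 1) (by omega)
      have h0 := ih k (by omega)
      unfold hof
      rw [Finset.mem_union, Finset.mem_map, Finset.mem_map]
      constructor
      · rintro (⟨l, hl, rfl⟩ | ⟨l, hl, rfl⟩)
        · rw [h1] at hl
          change (∀ a ∈ 2 :: l, a = 2 ∨ a = 3) ∧ (2 :: l).sum = k + 3
          simp only [List.mem_cons, forall_eq_or_imp, List.sum_cons]
          exact ⟨⟨Or.inl trivial, hl.1⟩, by rw [hl.2]; ring⟩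
        · rw [h0] at hl
          change (∀ a ∈ 3 :: l, a = 2 ∨ a = 3) ∧ (3 :: l).sum = k + 3
          simp only [List.mem_cons, forall_eq_or_imp, List.sum_cons]
          exact ⟨⟨Or.inr trivial, hl.1⟩, by rw [hl.2]; ring⟩
      · intro h
        cases n with
        | nil => simp at h
        | cons a l =>
          simp only [List.mem_cons, forall_eq_or_imp, List.sum_cons] at h
          rcases h.1.1 with ha | ha
          · left
            refine ⟨l, (h1 l).2 ⟨h.1.2, by omega⟩, ?_⟩
            rw [ha]; rfl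
          · right
            refine ⟨l, (h0 l).2 ⟨h.1.2, by omega⟩, ?_⟩
            rw [ha]; rfl

lemma card_hof (k : ℕ) : (hof k).card = D k := by
  induction k using Nat.strong_induction_on with
  | _ k ih =>
    match k, ih with
    | 0, _ => rfl
    | 1, _ => rfl
    | 2, _ => rfl
    | (k + 3), ih =>
      unfold hof D
      rw [Finset.card_union_of_disjoint, Finset.card_map, Finset.card_map, ih _ (by omega),
        ih _ (by omega)]
      rw [Finset.disjoint_left]
      rintro p h1 h2
      obtain ⟨q, _, rfl⟩ := Finset.mem_map.1 h1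
      obtain ⟨q', _, h⟩ := Finset.mem_map.1 h2
      have h' : 3 = 2 := (List.cons_eq_cons.1 h).1
      omega

noncomputable instance (k : ℕ) : Fintype {n : List ℕ // IsHoffman k n} :=
  Fintype.subtype (hof k) (mem_hof k)

lemma card_hoffman (k : ℕ) : Fintype.card {n : List ℕ // IsHoffman k n} = D k := by
  rw [Fintype.card_of_subtype (hof k) (mem_hof k), card_hof]

/-- There is an isomorphism of graded algebras from `H` to the external direct sum `⨁ Z w`: a
homomorphism of algebras `Φ : H → ℝ` which maps `H_w` bijectively onto `Z_w` for all `w`. -/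
def GradedIso (Z : ℕ → Submodule ℚ ℝ) : Prop :=
  ∃ Φ : HH →ₗ[ℚ] ℝ, Φ (Finsupp.single (0, []) 1) = 1 ∧ (∀ f g : HH, Φ (mulH f g) = Φ f * Φ g) ∧
    ∀ w, (Hk w).map Φ = Z w ∧ ∀ f ∈ Hk w, Φ f = 0 → f = 0

section

variable {Z : ℕ → Submodule ℚ ℝ} {ψ : HH →ₗ[ℚ] ℝ}

lemma dims_of_iso (h : GradedIso Z) (w : ℕ) : finrank ℚ (Z w) = D w := by
  obtain ⟨Φ, _, _, h3⟩ := h
  have h4 := rank_nullity (Hk w) Φ
  have h5 : Hk w ⊓ LinearMap.ker Φ = ⊥ := by
    rw [Submodule.eq_bot_iff]
    rintro f ⟨hf, hf2⟩
    exact (h3 w).2 f hf hf2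
  rw [h5, finrank_bot, (h3 w).1, finrank_Hk] at h4
  omega

lemma iso_of_no_rel (hψ : IsSurjection Z ψ) (h : ¬ ∃ e, ∃ r ∈ Ik ψ e, r ≠ 0) : GradedIso Z := by
  refine ⟨ψ, hψ.one, hψ.mul, fun w => ⟨hψ.map w, fun f hf hf0 => ?_⟩⟩
  by_contra hne
  exact h ⟨w, f, mem_Ik.2 ⟨hf, hf0⟩, hne⟩

lemma rel_of_lt (hψ : IsSurjection Z ψ) {e : ℕ} (he : finrank ℚ (Z e) < D e) :
    ∃ r ∈ Ik ψ e, r ≠ 0 := by
  have h1 := hψ.add_eq e
  have h2 : Ik ψ e ≠ ⊥ := by
    intro h0
    unfold ii at h1
    rw [h0, finrank_bot] at h1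
    omega
  obtain ⟨r, hr, hr0⟩ := Submodule.exists_mem_ne_zero_of_ne_bot h2
  exact ⟨r, hr, hr0⟩

lemma gap_rel (hψ : IsSurjection Z ψ) {e : ℕ} {r : HH} (hr : r ∈ Ik ψ e) (hr0 : r ≠ 0) (k : ℕ) :
    finrank ℚ (Z (k + e)) + D k ≤ D (k + e) := by
  have h1 := gap_one hψ hr hr0 k
  have h2 := hψ.add_eq (k + e)
  omega

lemma limsup_rel (hψ : IsSurjection Z ψ) {ρ : ℝ} (h1 : 1 < ρ) (h2 : ρ < 2) (h3 : ρ ^ 3 = ρ + 1)
    {e : ℕ} {r : HH} (hr : r ∈ Ik ψ e) (hr0 : r ≠ 0) :
    limsup (fun k => (finrank ℚ (Z k) : ℝ) / D k) atTop ≤ 1 - (ρ ^ e)⁻¹ :=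
  limsup_le_of_gap (gap_rel hψ hr hr0) (D_ratio h1 h2 h3 e)

/-- If the ratio is eventually one. -/
lemma limsup_one {f : ℕ → ℝ} (h : ∀ᶠ k in atTop, f k = 1) : limsup f atTop = 1 := by
  have : Tendsto f atTop (𝓝 1) := (tendsto_congr' h).2 tendsto_const_nhds
  exact this.limsup_eq

theorem iso_iff_infinite (hψ : IsSurjection Z ψ) :
    GradedIso Z ↔ {k | finrank ℚ (Z k) = D k}.Infinite := by
  constructor
  · intro h
    have : {k | finrank ℚ (Z k) = D k} = Set.univ := Set.eq_univ_of_forall fun k => dims_of_iso h k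
    rw [this]
    exact Set.infinite_univ
  · intro hinf
    refine iso_of_no_rel hψ ?_
    rintro ⟨e, r, hr, hr0⟩
    obtain ⟨n, hn, hn2⟩ := hinf.exists_gt (e + 1)
    have h := gap_rel hψ hr hr0 (n - e)
    have hD := D_pos (k := n - e) (by omega)
    rw [Nat.sub_add_cancel (by omega)] at h
    have h5 : finrank ℚ (Z n) = D n := hn
    omega

theorem iso_iff_limsup (hψ : IsSurjection Z ψ) :
    GradedIso Z ↔ limsup (fun k => (finrank ℚ (Z k) : ℝ) / D k) atTop = 1 := by
  constructor
  · intro h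
    refine limsup_one ?_
    filter_upwards [eventually_gt_atTop 1] with k hk
    rw [dims_of_iso h k]
    have := D_pos (k := k) (by omega)
    exact div_self (by positivity)
  · intro hl
    refine iso_of_no_rel hψ ?_
    rintro ⟨e, r, hr, hr0⟩
    obtain ⟨ρ, h1, h2, h3⟩ := exists_rho
    have h := limsup_rel hψ h1 h2 h3 hr hr0
    rw [hl] at h
    have : 0 < (ρ ^ e)⁻¹ := by positivity
    linarith

theorem iso_iff_hoffman (hψ : IsSurjection Z ψ) (v : List ℕ → ℝ)
    (hv : ∀ k n, IsHoffman k n → v n ∈ Z k)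
    (hB : ∀ k, Z k ≤ Submodule.span ℚ (v '' {n | IsHoffman k n})) :
    GradedIso Z ↔
      {k | LinearIndependent ℚ fun n : {n : List ℕ // IsHoffman k n} => v n}.Infinite := by
  constructor
  · intro h
    have : {k | LinearIndependent ℚ fun n : {n : List ℕ // IsHoffman k n} => v n} = Set.univ := by
      refine Set.eq_univ_of_forall fun k => ?_
      change LinearIndependent ℚ fun n : {n : List ℕ // IsHoffman k n} => v n
      rw [linearIndependent_iff_card_eq_finrank_span, card_hoffman, Set.finrank, ← dims_of_iso h k]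
      have h1 : Set.range (fun n : {n : List ℕ // IsHoffman k n} => v n) =
          v '' {n | IsHoffman k n} := by
        ext x
        constructor
        · rintro ⟨⟨n, hn⟩, rfl⟩
          exact ⟨n, hn, rfl⟩
        · rintro ⟨n, hn, rfl⟩
          exact ⟨⟨n, hn⟩, rfl⟩
      rw [h1]
      have h2 : Submodule.span ℚ (v '' {n | IsHoffman k n}) = Z k := by
        refine le_antisymm ?_ (hB k)
        rw [Submodule.span_le]
        rintro _ ⟨n, hn, rfl⟩
        exact hv k n hn
      rw [h2]
    rw [this]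
    exact Set.infinite_univ
  · intro hinf
    rw [iso_iff_infinite hψ]
    refine hinf.mono fun k hk => ?_
    have hk' : LinearIndependent ℚ fun n : {n : List ℕ // IsHoffman k n} => v n := hk
    have hfd := hψ.finite k
    have h1 : LinearIndependent ℚ
        (fun n : {n : List ℕ // IsHoffman k n} => (⟨v n, hv k n n.2⟩ : Z k)) := by
      refine LinearIndependent.of_comp (Z k).subtype ?_
      exact hk'
    have h2 := h1.fintype_card_le_finrank
    rw [card_hoffman] at h2
    have h3 := hψ.add_eq k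
    change finrank ℚ (Z k) = D k
    omega

lemma dimMod_le (hψ : IsSurjection Z ψ) {m : ℕ} (hm : 2 ≤ m) {z : ℝ} (hz : z ∈ Z m) (hz0 : z ≠ 0)
    (hI : ∃ e, ∃ r ∈ Ik ψ e, r ≠ 0) :
    ∃ e, ∀ k, e ≤ k + m → dimMod Z m z k + D (k + m - e) + D k ≤ D (k + m) := by
  obtain ⟨e, he⟩ := growth_all hψ hI m hm
  refine ⟨e, fun k hk => ?_⟩
  have h1 := he k (k + m) rfl hk
  have h2 := dimMod_add hψ hz hz0 k
  have h3 := hψ.add_eq k
  have h4 := hψ.add_eq (k + m)
  omega

lemma dimMod_of_iso (hψ : IsSurjection Z ψ) (h : GradedIso Z) {m : ℕ} {z : ℝ} (hz : z ∈ Z m)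
    (hz0 : z ≠ 0) (k : ℕ) : dimMod Z m z k + D k = D (k + m) := by
  have h2 := dimMod_add hψ hz hz0 k
  rw [dims_of_iso h, dims_of_iso h] at h2
  exact h2

theorem iso_iff_mod (hψ : IsSurjection Z ψ) {m : ℕ} (hm : 2 ≤ m) {z : ℝ} (hz : z ∈ Z m)
    (hz0 : z ≠ 0) : GradedIso Z ↔ {k | dimMod Z m z k + D k = D (k + m)}.Infinite := by
  constructor
  · intro h
    have : {k | dimMod Z m z k + D k = D (k + m)} = Set.univ :=
      Set.eq_univ_of_forall fun k => dimMod_of_iso hψ h hz hz0 k
    rw [this]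
    exact Set.infinite_univ
  · intro hinf
    refine iso_of_no_rel hψ fun hI => ?_
    obtain ⟨e, he⟩ := dimMod_le hψ hm hz hz0 hI
    obtain ⟨n, hn, hn2⟩ := hinf.exists_gt (e + 1)
    have h := he n (by omega)
    have hD := D_pos (k := n + m - e) (by omega)
    have h5 : dimMod Z m z n + D n = D (n + m) := hn
    omega

theorem iso_iff_mod_limsup (hψ : IsSurjection Z ψ) {m : ℕ} (hm : 2 ≤ m) {z : ℝ} (hz : z ∈ Z m)
    (hz0 : z ≠ 0) : GradedIso Z ↔
      limsup (fun k => (dimMod Z m z k : ℝ) / ((D (k + m) : ℝ) - D k)) atTop = 1 := by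
  constructor
  · intro h
    refine limsup_one ?_
    filter_upwards [eventually_ge_atTop 3] with k hk
    have h1 := dimMod_of_iso hψ h hz hz0 k
    have h2 := D_lt_add hk hm
    have h3 : ((dimMod Z m z k : ℝ)) + D k = D (k + m) := by exact_mod_cast h1
    have h4 : (D k : ℝ) < D (k + m) := by exact_mod_cast h2
    rw [← h3, add_sub_cancel_right]
    exact div_self (by linarith)
  · intro hl
    refine iso_of_no_rel hψ fun hI => ?_
    obtain ⟨e, he⟩ := dimMod_le hψ hm hz hz0 hI
    obtain ⟨ρ, h1, h2, h3⟩ := exists_rho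
    have hlim : Tendsto (fun k => 1 - (D k : ℝ) / D (k + e)) atTop (𝓝 (1 - (ρ ^ e)⁻¹)) :=
      tendsto_const_nhds.sub (D_ratio h1 h2 h3 e)
    have hle : limsup (fun k => (dimMod Z m z k : ℝ) / ((D (k + m) : ℝ) - D k)) atTop ≤
        1 - (ρ ^ e)⁻¹ := by
      rw [← Filter.limsup_nat_add _ (e + 3)]
      have hlim2 := hlim.comp (tendsto_add_atTop_nat (3 + m))
      rw [← hlim2.limsup_eq]
      refine limsup_le_limsup ?_ ?_ hlim2.isBoundedUnder_le
      · refine Eventually.of_forall fun k => ?_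
        have h4 := he (k + (e + 3)) (by omega)
        have h5 := D_lt_add (k := k + (e + 3)) (m := m) (by omega) hm
        have e1 : k + (e + 3) + m - e = k + (3 + m) := by omega
        have e2 : k + (3 + m) + e = k + (e + 3) + m := by ring
        rw [e1] at h4
        simp only [Function.comp_apply]
        rw [e2]
        have h6 : (dimMod Z m z (k + (e + 3)) : ℝ) + D (k + (3 + m)) + D (k + (e + 3)) ≤
          D (k + (e + 3) + m) := by exact_mod_cast h4
        have h7 : (D (k + (e + 3)) : ℝ) < D (k + (e + 3) + m) := by exact_mod_cast h5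
        have h8 : (0 : ℝ) ≤ D (k + (e + 3)) := Nat.cast_nonneg _
        have h9 : (0 : ℝ) ≤ D (k + (3 + m)) := Nat.cast_nonneg _
        set X : ℝ := ((D (k + (e + 3) + m) : ℕ) : ℝ)
        set Y : ℝ := ((D (k + (e + 3)) : ℕ) : ℝ)
        set T : ℝ := ((D (k + (3 + m)) : ℕ) : ℝ)
        have hX : 0 < X := by linarith
        have hXY : 0 < X - Y := by linarith
        rw [div_le_iff₀ hXY]
        have h10 : T / X * (X - Y) ≤ T := by
          rw [div_mul_eq_mul_div, div_le_iff₀ hX]
          nlinarith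
        nlinarith
      · refine IsCoboundedUnder.of_frequently_ge (a := 0) (Eventually.frequently ?_)
        refine Eventually.of_forall fun k => ?_
        have h5 := D_lt_add (k := k + (e + 3)) (m := m) (by omega) hm
        have h7 : (D (k + (e + 3)) : ℝ) < D (k + (e + 3) + m) := by exact_mod_cast h5
        exact div_nonneg (Nat.cast_nonneg _) (by linarith)
    rw [hl] at hle
    have : 0 < (ρ ^ e)⁻¹ := by positivity
    linarith

end

end Pool.Agent.J4.H42.MZ
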