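import Mathlib

/-!
# The shuffle algebra on letters `f_3, f_5, …` tensor `ℚ[π²]` has no homogeneous zero divisors

The monomial `(m, [a_1, …, a_n])` stands for `(π²)^m ⊗ f_{2 a_1 + 3} ⋯ f_{2 a_n + 3}`.
-/

set_option autoImplicit false

namespace Pool.Agent.J4.H42.MZ

/-- The list of the shuffles of two words (with multiplicities). -/
def shuf : List ℕ → List ℕ → List (List ℕ)
  | [], v => [v]
  | a :: u, [] => [a :: u]
  | a :: u, b :: v => (shuf u (b :: v)).map (a :: ·) ++ (shuf (a :: u) v).map (b :: ·)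
termination_by u v => u.length + v.length

/-- The weight of a word. -/
def wl (u : List ℕ) : ℕ := (u.map fun a => 2 * a + 3).sum

/-- The weight of a monomial. -/
def wt (p : ℕ × List ℕ) : ℕ := 2 * p.1 + wl p.2

@[simp] lemma wl_nil : wl [] = 0 := rfl

@[simp] lemma wl_cons (a : ℕ) (u : List ℕ) : wl (a :: u) = (2 * a + 3) + wl u := by
  simp [wl]

lemma shuf_nil_left (v : List ℕ) : shuf [] v = [v] := by
  unfold shuf; rfl

lemma shuf_nil_right (u : List ℕ) : shuf u [] = [u] := by
  cases u <;> unfold shuf <;> rfl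

lemma shuf_cons (a b : ℕ) (u v : List ℕ) : shuf (a :: u) (b :: v) =
    (shuf u (b :: v)).map (a :: ·) ++ (shuf (a :: u) v).map (b :: ·) := by
  rw [shuf]

lemma shuf_ne_nil (u v : List ℕ) : shuf u v ≠ [] := by
  induction u generalizing v with
  | nil => simp [shuf_nil_left]
  | cons a u ih =>
    cases v with
    | nil => simp [shuf_nil_right]
    | cons b v =>
      rw [shuf_cons]
      intro h
      have := (List.append_eq_nil_iff.1 h).1
      exact ih (b :: v) (List.map_eq_nil_iff.1 this)

lemma wl_of_mem (u v : List ℕ) : ∀ w ∈ shuf u v, wl w = wl u + wl v := by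
  induction u generalizing v with
  | nil => intro w hw; rw [shuf_nil_left, List.mem_singleton] at hw; simp [hw]
  | cons a u ihu =>
    induction v with
    | nil => intro w hw; rw [shuf_nil_right, List.mem_singleton] at hw; simp [hw]
    | cons b v ihv =>
      intro w hw
      rw [shuf_cons, List.mem_append, List.mem_map, List.mem_map] at hw
      rcases hw with ⟨w0, h0, rfl⟩ | ⟨w0, h0, rfl⟩
      · rw [wl_cons, ihu _ _ h0, wl_cons, wl_cons]; omega
      · rw [wl_cons, ihv _ h0, wl_cons, wl_cons]; omega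

lemma mem_shuf_comm (u v w : List ℕ) : w ∈ shuf u v → w ∈ shuf v u := by
  induction u generalizing v w with
  | nil => intro hw; rw [shuf_nil_left] at hw; rwa [shuf_nil_right]
  | cons a u ihu =>
    induction v generalizing w with
    | nil => intro hw; rw [shuf_nil_right] at hw; rwa [shuf_nil_left]
    | cons b v ihv =>
      intro hw
      rw [shuf_cons, List.mem_append, List.mem_map, List.mem_map] at hw
      rw [shuf_cons, List.mem_append, List.mem_map, List.mem_map]
      rcases hw with ⟨w0, h0, rfl⟩ | ⟨w0, h0, rfl⟩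
      · exact Or.inr ⟨w0, ihu _ _ h0, rfl⟩
      · exact Or.inl ⟨w0, ihv _ h0, rfl⟩

/-- `Dom u' u`: at the first place where the words differ, `u` has the smaller letter. -/
inductive Dom : List ℕ → List ℕ → Prop
  | head {a b : ℕ} (x y : List ℕ) : a < b → Dom (b :: y) (a :: x)
  | tail (c : ℕ) {u' u : List ℕ} : Dom u' u → Dom (c :: u') (c :: u)

lemma Dom.lt {u' u : List ℕ} (h : Dom u' u) : u < u' := by
  induction h with
  | head x y hab => exact List.Lex.rel hab
  | tail c _ ih => exact List.Lex.cons ih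

lemma Dom.trans {u v w : List ℕ} (h1 : Dom u v) (h2 : Dom v w) : Dom u w := by
  induction h1 generalizing w with
  | head x y hab =>
    cases h2 with
    | head x' _ h' => exact Dom.head _ _ (lt_trans h' hab)
    | tail c h' => exact Dom.head _ _ hab
  | tail c _ ih =>
    cases h2 with
    | head x' _ h' => exact Dom.head _ _ h'
    | tail _ h' => exact Dom.tail _ (ih h')

lemma dom_of_lt {u v : List ℕ} (h : u < v) (hw : wl u = wl v) : Dom v u := by
  induction u generalizing v with
  | nil =>
    cases v with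
    | nil => exact absurd h (lt_irrefl _)
    | cons b v => simp at hw; omega
  | cons a u ih =>
    cases v with
    | nil => simp at hw
    | cons b v =>
      rw [List.cons_lt_cons_iff] at h
      rcases h with h | ⟨rfl, h⟩
      · exact Dom.head _ _ h
      · refine Dom.tail _ (ih h ?_)
        simp at hw; exact hw

lemma lift_left {u' u : List ℕ} (h : Dom u' u) (v : List ℕ) {W : List ℕ} (hW : W ∈ shuf u' v) :
    ∃ W', W' ∈ shuf u v ∧ Dom W W' := by
  induction h generalizing v W with
  | head x y hab =>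
    rename_i a b
    induction v generalizing W with
    | nil =>
      rw [shuf_nil_right, List.mem_singleton] at hW
      subst hW
      exact ⟨a :: x, by simp [shuf_nil_right], Dom.head _ _ hab⟩
    | cons c v ih =>
      rw [shuf_cons, List.mem_append, List.mem_map, List.mem_map] at hW
      rcases hW with ⟨W0, _, rfl⟩ | ⟨W0, h0, rfl⟩
      · obtain ⟨W1, hW1⟩ := List.exists_mem_of_ne_nil _ (shuf_ne_nil x (c :: v))
        refine ⟨a :: W1, ?_, Dom.head _ _ hab⟩
        rw [shuf_cons, List.mem_append, List.mem_map]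
        exact Or.inl ⟨W1, hW1, rfl⟩
      · obtain ⟨W0', h1, h2⟩ := ih h0
        refine ⟨c :: W0', ?_, Dom.tail _ h2⟩
        rw [shuf_cons, List.mem_append, List.mem_map, List.mem_map]
        exact Or.inr ⟨W0', h1, rfl⟩
  | tail c hd ihd =>
    induction v generalizing W with
    | nil =>
      rw [shuf_nil_right, List.mem_singleton] at hW
      subst hW
      exact ⟨_, by rw [shuf_nil_right]; exact List.mem_singleton.2 rfl, Dom.tail _ hd⟩
    | cons d v ih =>
      rw [shuf_cons, List.mem_append, List.mem_map, List.mem_map] at hW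
      rcases hW with ⟨W0, h0, rfl⟩ | ⟨W0, h0, rfl⟩
      · obtain ⟨W0', h1, h2⟩ := ihd _ h0
        refine ⟨c :: W0', ?_, Dom.tail _ h2⟩
        rw [shuf_cons, List.mem_append, List.mem_map, List.mem_map]
        exact Or.inl ⟨W0', h1, rfl⟩
      · obtain ⟨W0', h1, h2⟩ := ih h0
        refine ⟨d :: W0', ?_, Dom.tail _ h2⟩
        rw [shuf_cons, List.mem_append, List.mem_map, List.mem_map]
        exact Or.inr ⟨W0', h1, rfl⟩

lemma lift_right {v' v : List ℕ} (h : Dom v' v) (u : List ℕ) {W : List ℕ} (hW : W ∈ shuf u v') :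
    ∃ W', W' ∈ shuf u v ∧ Dom W W' := by
  obtain ⟨W', h1, h2⟩ := lift_left h u (mem_shuf_comm _ _ _ hW)
  exact ⟨W', mem_shuf_comm _ _ _ h1, h2⟩

/-- The underlying space of `ℚ[π²] ⊗ (shuffle algebra)`. -/
abbrev HH := (ℕ × List ℕ) →₀ ℚ

/-- The product of `ℚ[π²] ⊗ (shuffle algebra)`. -/
noncomputable def mulH (f g : HH) : HH :=
  f.sum fun p c => g.sum fun q d =>
    (c * d) • ((shuf p.2 q.2).map fun w => Finsupp.single (p.1 + q.1, w) (1 : ℚ)).sum

/-- The part of weight `w`. -/
noncomputable def Hk (w : ℕ) : Submodule ℚ HH := Finsupp.supported ℚ ℚ {p | wt p = w}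

lemma mulH_add_left (f f' g : HH) : mulH (f + f') g = mulH f g + mulH f' g := by
  unfold mulH
  rw [Finsupp.sum_add_index']
  · intro p; simp
  · intro p c c'
    rw [← Finsupp.sum_add]
    congr 1
    ext q d : 2
    rw [add_mul, add_smul]

lemma mulH_smul_left (c : ℚ) (f g : HH) : mulH (c • f) g = c • mulH f g := by
  unfold mulH
  rw [Finsupp.sum_smul_index' (by intro p; simp), Finsupp.smul_sum]
  congr 1
  ext p d : 2
  rw [Finsupp.smul_sum]
  congr 1
  ext q d' : 2
  rw [smul_smul, smul_eq_mul]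
  ring_nf

lemma list_sum_apply (L : List (List ℕ)) (n N : ℕ) (W : List ℕ) :
    ((L.map fun w => Finsupp.single (n, w) (1 : ℚ)).sum) (N, W) =
      if n = N then (L.count W : ℚ) else 0 := by
  induction L with
  | nil => simp
  | cons x L ih =>
    rw [List.map_cons, List.sum_cons, Finsupp.add_apply, ih, Finsupp.single_apply,
      List.count_cons]
    by_cases h : n = N
    · by_cases hx : x = W
      · simp [h, hx]; ring
      · simp [h, hx]
    · simp [h]

lemma mulH_apply (f g : HH) (N : ℕ) (W : List ℕ) :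
    mulH f g (N, W) = ∑ p ∈ f.support, ∑ q ∈ g.support,
      (f p * g q) * (if p.1 + q.1 = N then ((shuf p.2 q.2).count W : ℚ) else 0) := by
  unfold mulH
  rw [Finsupp.sum, Finsupp.finsetSum_apply]
  refine Finset.sum_congr rfl fun p _ => ?_
  rw [Finsupp.sum, Finsupp.finsetSum_apply]
  refine Finset.sum_congr rfl fun q _ => ?_
  rw [Finsupp.smul_apply, list_sum_apply, smul_eq_mul]

lemma mem_Hk {w : ℕ} {f : HH} : f ∈ Hk w ↔ ∀ p ∈ f.support, wt p = w := by
  unfold Hk
  rw [Finsupp.mem_supported]
  rfl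

lemma mulH_mem {a b : ℕ} {f g : HH} (hf : f ∈ Hk a) (hg : g ∈ Hk b) : mulH f g ∈ Hk (a + b) := by
  rw [mem_Hk]
  rintro ⟨N, W⟩ h
  rw [Finsupp.mem_support_iff, mulH_apply] at h
  obtain ⟨p, hp, h1⟩ := Finset.exists_ne_zero_of_sum_ne_zero h
  obtain ⟨q, hq, h2⟩ := Finset.exists_ne_zero_of_sum_ne_zero h1
  have h3 := right_ne_zero_of_mul h2
  split_ifs at h3 with h4
  · have h5 : W ∈ shuf p.2 q.2 := by
      by_contra hno
      exact h3 (by rw [List.count_eq_zero_of_not_mem hno]; simp)
    have h6 := wl_of_mem _ _ _ h5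
    have h7 := mem_Hk.1 hf p hp
    have h8 := mem_Hk.1 hg q hq
    unfold wt at h7 h8 ⊢
    simp only
    rw [h6, ← h4]
    omega
  · exact absurd rfl h3

/-- The leading monomial: the smallest power of `π²`, then the lexicographically smallest word. -/
def IsLead (f : HH) (p : ℕ × List ℕ) : Prop :=
  p ∈ f.support ∧ ∀ p' ∈ f.support, p.1 < p'.1 ∨ (p'.1 = p.1 ∧ (p'.2 = p.2 ∨ Dom p'.2 p.2))

lemma Dom.irrefl {u : List ℕ} (h : Dom u u) : False := lt_irrefl _ h.lt

lemma IsLead.unique {f : HH} {p q : ℕ × List ℕ} (hp : IsLead f p) (hq : IsLead f q) : p = q := by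
  have h1 := hp.2 q hq.1
  have h2 := hq.2 p hp.1
  rcases h1 with h1 | ⟨h1, h1'⟩
  · rcases h2 with h2 | ⟨h2, _⟩ <;> omega
  · rcases h2 with h2 | ⟨_, h2'⟩
    · omega
    · rcases h1' with h1' | h1'
      · exact Prod.ext h1.symm h1'.symm
      · rcases h2' with h2' | h2'
        · exact Prod.ext h1.symm h2'
        · exact (h1'.trans h2').irrefl.elim

lemma exists_lead {a : ℕ} {f : HH} (hf : f ∈ Hk a) (hf0 : f ≠ 0) : ∃ p, IsLead f p := by
  have hne : f.support.Nonempty := Finsupp.support_nonempty_iff.2 hf0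
  obtain ⟨p0, hp0, hmin⟩ := Finset.exists_min_image f.support (fun p => p.1) hne
  obtain ⟨p, hp, hmax⟩ := Finset.exists_min_image (f.support.filter fun p => p.1 = p0.1)
    (fun p => p.2) ⟨p0, Finset.mem_filter.2 ⟨hp0, rfl⟩⟩
  rw [Finset.mem_filter] at hp
  refine ⟨p, hp.1, fun p' hp' => ?_⟩
  rcases lt_or_eq_of_le (hmin p' hp') with h | h
  · left; rw [hp.2]; exact h
  · right
    refine ⟨by rw [hp.2, ← h], ?_⟩
    have h1 := hmax p' (Finset.mem_filter.2 ⟨hp', h.symm⟩)
    rcases lt_or_eq_of_le h1 with h2 | h2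
    · right
      refine dom_of_lt h2 ?_
      have h3 := mem_Hk.1 hf p hp.1
      have h4 := mem_Hk.1 hf p' hp'
      unfold wt at h3 h4
      have h5 := hp.2
      omega
    · left; exact h2.symm

/-- `W` is the lexicographically smallest shuffle of `u` and `v`. -/
def IsMerge (u v W : List ℕ) : Prop := W ∈ shuf u v ∧ ∀ W' ∈ shuf u v, W' = W ∨ Dom W' W

lemma exists_merge (u v : List ℕ) : ∃ W, IsMerge u v W := by
  classical
  obtain ⟨W, hW, hmax⟩ := Finset.exists_min_image (shuf u v).toFinset id
    (by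
      obtain ⟨x, hx⟩ := List.exists_mem_of_ne_nil _ (shuf_ne_nil u v)
      exact ⟨x, List.mem_toFinset.2 hx⟩)
  rw [List.mem_toFinset] at hW
  refine ⟨W, hW, fun W' hW' => ?_⟩
  have h := hmax W' (List.mem_toFinset.2 hW')
  rcases lt_or_eq_of_le h with h | h
  · right
    exact dom_of_lt h (by rw [wl_of_mem _ _ _ hW, wl_of_mem _ _ _ hW'])
  · left; exact h.symm

/-- Shuffles of dominated words are dominated. -/
lemma lift_both {u' u v' v W : List ℕ} (h1 : u' = u ∨ Dom u' u) (h2 : v' = v ∨ Dom v' v)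
    (hne : u' ≠ u ∨ v' ≠ v) (hW : W ∈ shuf u' v') : ∃ W', W' ∈ shuf u v ∧ Dom W W' := by
  rcases h1 with e1 | d1
  · rcases h2 with e2 | d2
    · exact absurd e2 (hne.resolve_left (fun h => h e1))
    · rw [e1] at hW
      exact lift_right d2 _ hW
  · obtain ⟨W1, h3, h4⟩ := lift_left d1 _ hW
    rcases h2 with e2 | d2
    · rw [e2] at h3
      exact ⟨W1, h3, h4⟩
    · obtain ⟨W2, h5, h6⟩ := lift_right d2 _ h3
      exact ⟨W2, h5, h4.trans h6⟩

/-- **The leading monomial of a product.** -/
theorem lead_mul {f g : HH} {p q : ℕ × List ℕ} (hp : IsLead f p) (hq : IsLead g q) {W : List ℕ}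
    (hW : IsMerge p.2 q.2 W) : IsLead (mulH f g) (p.1 + q.1, W) := by
  classical
  -- all terms of the product are dominated
  have dom : ∀ p' ∈ f.support, ∀ q' ∈ g.support, p.1 + q.1 < p'.1 + q'.1 ∨
      (p'.1 + q'.1 = p.1 + q.1 ∧ ∀ W' ∈ shuf p'.2 q'.2,
        (W' = W ∧ p' = p ∧ q' = q) ∨ Dom W' W) := by
    intro p' hp' q' hq'
    rcases hp.2 p' hp' with h | ⟨h1, h1'⟩
    · rcases hq.2 q' hq' with h' | h' <;> left <;> omega
    · rcases hq.2 q' hq' with h | ⟨h2, h2'⟩
      · left; omega
      · right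
        refine ⟨by omega, fun W' hW' => ?_⟩
        by_cases hne : p'.2 ≠ p.2 ∨ q'.2 ≠ q.2
        · obtain ⟨W1, h3, h4⟩ := lift_both h1' h2' hne hW'
          right
          rcases hW.2 W1 h3 with e | d
          · rw [← e]; exact h4
          · exact h4.trans d
        · push Not at hne
          rw [hne.1, hne.2] at hW'
          rcases hW.2 W' hW' with e | d
          · exact Or.inl ⟨e, Prod.ext h1 hne.1, Prod.ext h2 hne.2⟩
          · exact Or.inr d
  have key : ∀ p' ∈ f.support, ∀ q' ∈ g.support, (p' ≠ p ∨ q' ≠ q) →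
      (f p' * g q') * (if p'.1 + q'.1 = p.1 + q.1 then ((shuf p'.2 q'.2).count W : ℚ) else 0)
        = 0 := by
    intro p' hp' q' hq' hne
    by_cases hN : p'.1 + q'.1 = p.1 + q.1
    · rw [if_pos hN, List.count_eq_zero_of_not_mem, Nat.cast_zero, mul_zero]
      intro hmem
      rcases dom p' hp' q' hq' with h | ⟨_, h⟩
      · omega
      · rcases h W hmem with ⟨_, e1, e2⟩ | d
        · rcases hne with hne | hne
          · exact hne e1
          · exact hne e2
        · exact d.irrefl
    · rw [if_neg hN, mul_zero]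
  constructor
  · rw [Finsupp.mem_support_iff, mulH_apply, Finset.sum_eq_single p, Finset.sum_eq_single q,
      if_pos rfl]
    · refine mul_ne_zero (mul_ne_zero (Finsupp.mem_support_iff.1 hp.1)
        (Finsupp.mem_support_iff.1 hq.1)) ?_
      rw [Nat.cast_ne_zero]
      exact (List.count_pos_iff.2 hW.1).ne'
    · intro q' hq' hne
      exact key p hp.1 q' hq' (Or.inr hne)
    · intro hno; exact absurd hq.1 hno
    · intro p' hp' hne
      refine Finset.sum_eq_zero fun q' hq' => ?_
      exact key p' hp' q' hq' (Or.inl hne)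
    · intro hno; exact absurd hp.1 hno
  · rintro ⟨N, W'⟩ h
    rw [Finsupp.mem_support_iff, mulH_apply] at h
    obtain ⟨p', hp', h1⟩ := Finset.exists_ne_zero_of_sum_ne_zero h
    obtain ⟨q', hq', h2⟩ := Finset.exists_ne_zero_of_sum_ne_zero h1
    have h3 := right_ne_zero_of_mul h2
    split_ifs at h3 with h4
    · have h5 : W' ∈ shuf p'.2 q'.2 := by
        by_contra hno
        exact h3 (by rw [List.count_eq_zero_of_not_mem hno]; simp)
      rcases dom p' hp' q' hq' with h | ⟨h6, h7⟩
      · left; change p.1 + q.1 < N; omega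
      · right
        refine ⟨by change N = p.1 + q.1; omega, ?_⟩
        rcases h7 W' h5 with h8 | h8
        · exact Or.inl h8.1
        · exact Or.inr h8
    · exact absurd rfl h3

theorem mulH_ne_zero {a b : ℕ} {f g : HH} (hf : f ∈ Hk a) (hg : g ∈ Hk b) (hf0 : f ≠ 0)
    (hg0 : g ≠ 0) : mulH f g ≠ 0 := by
  obtain ⟨p, hp⟩ := exists_lead hf hf0
  obtain ⟨q, hq⟩ := exists_lead hg hg0
  obtain ⟨W, hW⟩ := exists_merge p.2 q.2
  intro h0
  have := (lead_mul hp hq hW).1
  rw [h0] at this
  simp at this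

/-! ### the number of initial letters `f_3` -/

/-- The number of initial letters `0` of a word. -/
def zc : List ℕ → ℕ
  | [] => 0
  | a :: u => if a = 0 then zc u + 1 else 0

lemma zc_le (u v : List ℕ) : ∀ w ∈ shuf u v, zc w ≤ zc u + zc v := by
  induction u generalizing v with
  | nil => intro w hw; rw [shuf_nil_left, List.mem_singleton] at hw; simp [hw, zc]
  | cons a u ihu =>
    induction v with
    | nil => intro w hw; rw [shuf_nil_right, List.mem_singleton] at hw; simp [hw, zc]
    | cons b v ihv =>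
      intro w hw
      rw [shuf_cons, List.mem_append, List.mem_map, List.mem_map] at hw
      rcases hw with ⟨w0, h0, rfl⟩ | ⟨w0, h0, rfl⟩
      · have := ihu _ _ h0
        simp only [zc] at this ⊢
        split_ifs at this ⊢ <;> omega
      · have := ihv _ h0
        simp only [zc] at this ⊢
        split_ifs at this ⊢ <;> omega

lemma exists_zc (u v : List ℕ) : ∃ w ∈ shuf u v, zc w = zc u + zc v := by
  induction u generalizing v with
  | nil => exact ⟨v, by rw [shuf_nil_left]; exact List.mem_singleton.2 rfl, by simp [zc]⟩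
  | cons a u ihu =>
    induction v with
    | nil => exact ⟨a :: u, by rw [shuf_nil_right]; exact List.mem_singleton.2 rfl, by simp [zc]⟩
    | cons b v ihv =>
      by_cases ha : a = 0
      · obtain ⟨w, h1, h2⟩ := ihu (b :: v)
        refine ⟨a :: w, ?_, ?_⟩
        · rw [shuf_cons, List.mem_append, List.mem_map]
          exact Or.inl ⟨w, h1, rfl⟩
        · have e1 : zc (a :: w) = zc w + 1 := by rw [zc, if_pos ha]
          have e2 : zc (a :: u) = zc u + 1 := by rw [zc, if_pos ha]
          rw [e1, e2, h2]; omega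
      · by_cases hb : b = 0
        · obtain ⟨w, h1, h2⟩ := ihv
          refine ⟨b :: w, ?_, ?_⟩
          · rw [shuf_cons, List.mem_append, List.mem_map, List.mem_map]
            exact Or.inr ⟨w, h1, rfl⟩
          · rw [zc, if_pos hb, h2, zc, if_neg ha, zc, if_pos hb]; omega
        · obtain ⟨w, hw⟩ := List.exists_mem_of_ne_nil _ (shuf_ne_nil u (b :: v))
          refine ⟨a :: w, ?_, ?_⟩
          · rw [shuf_cons, List.mem_append, List.mem_map]
            exact Or.inl ⟨w, hw, rfl⟩
          · rw [zc, if_neg ha, zc, if_neg ha, zc, if_neg hb]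

lemma zc_dom {W' W : List ℕ} (h : Dom W' W) : zc W' ≤ zc W := by
  induction h with
  | head x y hab =>
    rename_i a b
    have hb : b ≠ 0 := by omega
    simp [zc, hb]
  | tail c _ ih =>
    by_cases hc : c = 0
    · simp [zc, hc, ih]
    · simp [zc, hc]

lemma zc_merge {u v W : List ℕ} (h : IsMerge u v W) : zc W = zc u + zc v := by
  refine le_antisymm (zc_le _ _ _ h.1) ?_
  obtain ⟨W', h1, h2⟩ := exists_zc u v
  rw [← h2]
  rcases h.2 W' h1 with e | d
  · rw [e]
  · exact zc_dom d

end Pool.Agent.J4.H42.MZ
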