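import Pool.Agent.J4.H42.MZ.Asym

/-!
# Graded subalgebras, quotients by a nonzero number
-/

set_option autoImplicit false

namespace Pool.Agent.J4.H42.MZ

open Filter Topology Module

/-- `A` is a graded subalgebra of `H` (without the condition on `1`). -/
structure IsSub (A : ℕ → Submodule ℚ HH) : Prop where
  le : ∀ k, A k ≤ Hk k
  mul : ∀ (a b : ℕ) (f g : HH), f ∈ A a → g ∈ A b → mulH f g ∈ A (a + b)

/-- The dimension of the space of the real numbers `ψ f`, `f ∈ A_k`. -/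
noncomputable def imdim (ψ : HH →ₗ[ℚ] ℝ) (A : ℕ → Submodule ℚ HH) (k : ℕ) : ℕ :=
  finrank ℚ ((A k).map ψ)

/-- The dimension of `Z_{k+m} / z Z_k`, the image of `Z_{k+m}` in `ℝ / z Z_k`. -/
noncomputable def dimMod (Z : ℕ → Submodule ℚ ℝ) (m : ℕ) (z : ℝ) (k : ℕ) : ℕ :=
  finrank ℚ ((Z (k + m)).map ((Z k).map (LinearMap.mulLeft ℚ z)).mkQ)

lemma D_mono_aux (k : ℕ) (hk : 1 ≤ k) : D k ≤ D (k + 1) := by
  match k, hk with
  | 1, _ => simp [D]
  | 2, _ => simp [D]
  | (k + 3), _ =>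
    have h1 : D (k + 3 + 1) = D (k + 1 + 1) + D (k + 1) := D_succ3 (k + 1)
    have h2 : D (k + 3) = D (k + 1) + D k := D_succ3 k
    have h3 : D k ≤ D (k + 1 + 1) := D_le_add_two k
    omega

lemma D_mono {a b : ℕ} (ha : 1 ≤ a) (hab : a ≤ b) : D a ≤ D b := by
  induction b, hab using Nat.le_induction with
  | base => exact le_rfl
  | succ b hb ih => exact ih.trans (D_mono_aux b (by omega))

lemma D_le_add (k m : ℕ) (hm : 2 ≤ m) : D k ≤ D (k + m) := by
  by_cases hk : 1 ≤ k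
  · exact D_mono hk (by omega)
  · have : k = 0 := by omega
    subst this
    exact D_pos (k := 0 + m) (by omega)

lemma D_lt_add {k m : ℕ} (hk : 3 ≤ k) (hm : 2 ≤ m) : D k < D (k + m) := by
  have h1 : D (k + 2) ≤ D (k + m) := D_mono (by omega) (by omega)
  obtain ⟨l, rfl⟩ : ∃ l, k = l + 1 := ⟨k - 1, by omega⟩
  have h2 : D (l + 1 + 2) = D (l + 1) + D l := D_succ3 l
  have h3 := D_pos (k := l) (by omega)
  omega

section

variable {Z : ℕ → Submodule ℚ ℝ} {ψ : HH →ₗ[ℚ] ℝ}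

lemma imdim_add (A : ℕ → Submodule ℚ HH) (hA : IsSub A) (k : ℕ) :
    imdim ψ A k + finrank ℚ (A k ⊓ Ik ψ k : Submodule ℚ HH) = finrank ℚ (A k) := by
  have hfd : FiniteDimensional ℚ (A k) := Submodule.finiteDimensional_of_le (hA.le k)
  have h1 : A k ⊓ Ik ψ k = A k ⊓ LinearMap.ker ψ := by
    unfold Ik
    rw [← inf_assoc, inf_eq_left.2 (hA.le k)]
  rw [h1]
  exact rank_nullity (A k) ψ

theorem sub_gap (hψ : IsSurjection Z ψ) (A : ℕ → Submodule ℚ HH) (hA : IsSub A) {e : ℕ}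
    (he : imdim ψ A e < finrank ℚ (A e)) (k : ℕ) :
    imdim ψ A (k + e) + finrank ℚ (A k) ≤ finrank ℚ (A (k + e)) := by
  have hfd : ∀ k, FiniteDimensional ℚ (A k) :=
    fun k => Submodule.finiteDimensional_of_le (hA.le k)
  have h1 := imdim_add (ψ := ψ) A hA e
  have h2 : (A e ⊓ Ik ψ e : Submodule ℚ HH) ≠ ⊥ := by
    intro h0
    rw [h0, finrank_bot] at h1
    omega
  obtain ⟨r, hr, hr0⟩ := Submodule.exists_mem_ne_zero_of_ne_bot h2
  rw [Submodule.mem_inf] at hr
  have h3 : FiniteDimensional ℚ (A (k + e) ⊓ Ik ψ (k + e) : Submodule ℚ HH) :=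
    Submodule.finiteDimensional_of_le inf_le_right
  have h4 : finrank ℚ (A k) ≤ finrank ℚ (A (k + e) ⊓ Ik ψ (k + e) : Submodule ℚ HH) := by
    refine one_map _ _ (mulR r) (fun h hh => ?_) fun h hh h0 => ?_
    · exact Submodule.mem_inf.2 ⟨hA.mul _ _ _ _ hh hr.1, hψ.ker_right rfl (hA.le k hh) hr.2⟩
    · by_contra hne
      exact mulH_ne_zero (hA.le k hh) (Ik_le e hr.2) hne hr0 h0
  have h5 := imdim_add (ψ := ψ) A hA (k + e)
  omega

/-- Ratios of sequences. -/
lemma ratio_pow {a : ℕ → ℕ} {lam : ℝ} (hlam : 1 ≤ lam)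
    (h : Tendsto (fun k => (a (k + 1) : ℝ) / a k) atTop (𝓝 lam)) (e : ℕ) :
    Tendsto (fun k => (a k : ℝ) / a (k + e)) atTop (𝓝 ((lam ^ e)⁻¹)) := by
  have hpos : ∀ᶠ k in atTop, (a k : ℝ) ≠ 0 := by
    have := h.eventually (lt_mem_nhds (show (0 : ℝ) < lam by linarith))
    filter_upwards [this] with k hk h0
    rw [h0, div_zero] at hk
    exact lt_irrefl _ hk
  induction e with
  | zero =>
    simp only [pow_zero, inv_one, add_zero]
    refine Tendsto.congr' ?_ tendsto_const_nhds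
    filter_upwards [hpos] with k hk
    rw [div_self hk]
  | succ e ih =>
    have h1 := (tendsto_add_atTop_iff_nat e).2 h
    have h2 := h1.inv₀ (by linarith : lam ≠ 0)
    have h3 := ih.mul h2
    rw [pow_succ, mul_inv]
    refine Tendsto.congr' ?_ h3
    have h4 := (tendsto_add_atTop_nat e).eventually hpos
    filter_upwards [h4] with k hk
    rw [inv_div, ← add_assoc]
    field_simp

/-- From a gap to the upper limit. -/
lemma limsup_le_of_gap {a b : ℕ → ℕ} {e : ℕ} {c : ℝ} (hgap : ∀ k, b (k + e) + a k ≤ a (k + e))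
    (h : Tendsto (fun k => (a k : ℝ) / a (k + e)) atTop (𝓝 c)) :
    limsup (fun k => (b k : ℝ) / a k) atTop ≤ 1 - c := by
  rw [← Filter.limsup_nat_add _ e]
  have h1 : Tendsto (fun k => 1 - (a k : ℝ) / a (k + e)) atTop (𝓝 (1 - c)) :=
    tendsto_const_nhds.sub h
  rw [← h1.limsup_eq]
  refine limsup_le_limsup ?_ ?_ h1.isBoundedUnder_le
  · refine Eventually.of_forall fun k => ?_
    have h2 : (b (k + e) : ℝ) + a k ≤ a (k + e) := by exact_mod_cast hgap k
    by_cases h0 : (a (k + e) : ℝ) = 0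
    · simp only
      rw [h0, div_zero, div_zero]; norm_num
    · have h3 : (0 : ℝ) < a (k + e) := lt_of_le_of_ne (Nat.cast_nonneg _) (Ne.symm h0)
      simp only
      rw [div_le_iff₀ h3, sub_mul, div_mul_cancel₀ _ h0]
      linarith
  · refine IsCoboundedUnder.of_frequently_ge (a := 0) (Frequently.of_forall fun k => ?_)
    positivity

/-- Subexponential growth. -/
lemma freq_of_gap {a b : ℕ → ℕ} {e : ℕ} (he0 : 0 < e) (hgap : ∀ k, b (k + e) + a k ≤ a (k + e))
    (he : b e < a e) (hsub : ∀ θ : ℝ, 1 < θ → ∀ᶠ k in atTop, (a k : ℝ) ≤ θ ^ k) {c : ℝ}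
    (hc : 0 < c) : ∃ᶠ k in atTop, (b k : ℝ) < c * a k := by
  by_contra hno
  rw [Filter.not_frequently] at hno
  obtain ⟨K, hK⟩ := eventually_atTop.1 hno
  have hae : 0 < a e := by omega
  have hmul : ∀ n, 0 < a ((n + 1) * e) := by
    intro n
    induction n with
    | zero => simpa using hae
    | succ n ih =>
      have := hgap ((n + 1) * e)
      have e1 : (n + 1 + 1) * e = (n + 1) * e + e := by ring
      rw [e1]; omega
  have hstep : ∀ k, K ≤ k → (a k : ℝ) ≤ (1 - c) * a (k + e) := by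
    intro k hk
    have h1 := hK (k + e) (by omega)
    have h2 : (b (k + e) : ℝ) + a k ≤ a (k + e) := by exact_mod_cast hgap k
    push Not at h1
    linarith
  set K' := (K + 1) * e with hK'
  have hKK : K ≤ K' := by rw [hK']; nlinarith
  have haK : (1 : ℝ) ≤ a K' := by exact_mod_cast hmul K
  have hx0 : 0 < 1 - c := by
    by_contra hneg
    push Not at hneg
    have h1 := hstep K' hKK
    have h2 : (0 : ℝ) ≤ a (K' + e) := Nat.cast_nonneg _
    nlinarith
  set x : ℝ := 1 - c with hx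
  have hx1 : x < 1 := by rw [hx]; linarith
  have hgrow : ∀ n : ℕ, (x⁻¹) ^ n ≤ a (K' + n * e) := by
    intro n
    induction n with
    | zero => simpa using haK
    | succ n ih =>
      have h1 := hstep (K' + n * e) (by omega)
      have e1 : K' + (n + 1) * e = K' + n * e + e := by ring
      rw [e1, pow_succ]
      have h2 : (x⁻¹) ^ n * x⁻¹ ≤ a (K' + n * e) * x⁻¹ :=
        mul_le_mul_of_nonneg_right ih (inv_nonneg.2 hx0.le)
      refine h2.trans ?_
      rw [← div_eq_mul_inv, div_le_iff₀ hx0, mul_comm _ x]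
      exact h1
  -- the root
  set y : ℝ := x⁻¹ with hy
  have hy1 : 1 < y := (one_lt_inv₀ hx0).2 hx1
  set θ : ℝ := y ^ (((2 * e : ℕ) : ℝ)⁻¹) with hθ
  have hθ1 : 1 < θ := Real.one_lt_rpow hy1 (by positivity)
  have hθe : θ ^ (2 * e) = y := Real.rpow_inv_natCast_pow (by linarith) (by omega)
  obtain ⟨K2, hK2⟩ := eventually_atTop.1 (hsub θ hθ1)
  have hsq : (θ ^ e) ^ 2 = y := by rw [← pow_mul, mul_comm e 2, hθe]
  have hte : 1 < θ ^ e := one_lt_pow₀ hθ1 (by omega)
  have hbound : ∀ n, K2 ≤ n → (θ ^ e) ^ n ≤ θ ^ K' := by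
    intro n hn
    have h1 := hK2 (K' + n * e) (by nlinarith)
    have h2 := hgrow n
    have h3 : y ^ n = (θ ^ e) ^ n * (θ ^ e) ^ n := by
      rw [← hsq, ← pow_mul, ← pow_add]
      ring_nf
    have h4 : θ ^ (K' + n * e) = θ ^ K' * (θ ^ e) ^ n := by
      rw [pow_add, ← pow_mul, mul_comm n e]
    have h5 : (θ ^ e) ^ n * (θ ^ e) ^ n ≤ θ ^ K' * (θ ^ e) ^ n := by
      rw [← h3, ← h4]; exact h2.trans h1
    exact le_of_mul_le_mul_right h5 (by positivity)
  obtain ⟨n, hn⟩ := pow_unbounded_of_one_lt (θ ^ K') hte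
  have h6 := hbound (max n K2) (le_max_right _ _)
  have h7 : (θ ^ e) ^ n ≤ (θ ^ e) ^ (max n K2) := pow_le_pow_right₀ hte.le (le_max_left _ _)
  linarith

/-! ### the multiplication in `Z` -/

lemma IsSurjection.mul_mem (hψ : IsSurjection Z ψ) {a b : ℕ} {x y : ℝ} (hx : x ∈ Z a)
    (hy : y ∈ Z b) : x * y ∈ Z (a + b) := by
  rw [← hψ.map, Submodule.mem_map] at hx hy ⊢
  obtain ⟨f, hf, rfl⟩ := hx
  obtain ⟨g, hg, rfl⟩ := hy
  exact ⟨mulH f g, mulH_mem hf hg, hψ.mul f g⟩

lemma dimMod_add (hψ : IsSurjection Z ψ) {m : ℕ} {z : ℝ} (hz : z ∈ Z m) (hz0 : z ≠ 0) (k : ℕ) :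
    dimMod Z m z k + finrank ℚ (Z k) = finrank ℚ (Z (k + m)) := by
  have hfd := hψ.finite
  have h := rank_nullity (Z (k + m)) ((Z k).map (LinearMap.mulLeft ℚ z)).mkQ
  have hle : (Z k).map (LinearMap.mulLeft ℚ z) ≤ Z (k + m) := by
    rintro _ ⟨y, hy, rfl⟩
    rw [LinearMap.mulLeft_apply, mul_comm]
    exact hψ.mul_mem hy hz
  have hinj : Function.Injective (LinearMap.mulLeft ℚ z) := by
    intro x y hxy
    rw [LinearMap.mulLeft_apply, LinearMap.mulLeft_apply] at hxy
    exact mul_left_cancel₀ hz0 hxy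
  rw [Submodule.ker_mkQ, inf_eq_right.2 hle,
    ← (Submodule.equivMapOfInjective _ hinj (Z k)).finrank_eq] at h
  exact h

lemma Ik_zero (hψ : IsSurjection Z ψ) : Ik ψ 0 = ⊥ := by
  have h := hψ.add_eq 0
  have hmem : Finsupp.single ((0, []) : ℕ × List ℕ) (1 : ℚ) ∈ Hk 0 := by
    rw [mem_Hk]
    intro q hq
    rw [Finsupp.support_single _ one_ne_zero, Finset.mem_singleton] at hq
    rw [hq]; rfl
  have hfd := hψ.finite 0
  have h2 : finrank ℚ (Z 0) ≠ 0 := by
    intro h0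
    rw [Submodule.finrank_eq_zero] at h0
    have h3 : ψ (Finsupp.single (0, []) 1) ∈ Z 0 := by
      rw [← hψ.map 0]
      exact Submodule.mem_map_of_mem hmem
    rw [hψ.one, h0, Submodule.mem_bot] at h3
    exact one_ne_zero h3
  have h4 : D 0 = 1 := rfl
  have h5 : ii ψ 0 = 0 := by omega
  unfold ii at h5
  rwa [Submodule.finrank_eq_zero] at h5

lemma pos_of_lt (hψ : IsSurjection Z ψ) (A : ℕ → Submodule ℚ HH) (hA : IsSub A) {e : ℕ}
    (he : imdim ψ A e < finrank ℚ (A e)) : 0 < e := by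
  rcases Nat.eq_zero_or_pos e with h | h
  · exfalso
    subst h
    have h1 := imdim_add (ψ := ψ) A hA 0
    rw [Ik_zero hψ, inf_bot_eq, finrank_bot] at h1
    omega
  · exact h

/-! ### the function `ν` for `π²` and for `ζ(3)` -/

lemma lead_single (p : ℕ × List ℕ) : IsLead (Finsupp.single p (1 : ℚ)) p := by
  constructor
  · simp
  · intro p' hp'
    rw [Finsupp.support_single _ one_ne_zero, Finset.mem_singleton] at hp'
    exact Or.inr ⟨by rw [hp'], Or.inl (by rw [hp'])⟩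

lemma single_mem (p : ℕ × List ℕ) : Finsupp.single p (1 : ℚ) ∈ Hk (wt p) := by
  rw [mem_Hk]
  intro q hq
  rw [Finsupp.support_single _ one_ne_zero, Finset.mem_singleton] at hq
  rw [hq]

lemma growth_two (hψ : IsSurjection Z ψ) (hI : ∃ e, ∃ r ∈ Ik ψ e, r ≠ 0) :
    ∃ e, ∀ k n, k + 2 = n → e ≤ n → D (n - e) + ii ψ k ≤ ii ψ n := by
  obtain ⟨e, he⟩ := growth hψ (fun p => p.1) (fun p q W _ => rfl)
    (single_mem (1, [])) (lead_single (1, [])) le_rfl hI
  refine ⟨e + 3, fun k n hk hn => ?_⟩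
  obtain ⟨l, rfl⟩ : ∃ l, n = l + (e + 3) := ⟨n - (e + 3), by omega⟩
  have h1 := he (l + 3) k (by rw [show wt (1, []) = 2 from rfl]; omega)
  have h2 : finrank ℚ (Uk (fun p => p.1) (l + 3)) = D l := finrank_Wk l
  rw [h2] at h1
  rw [Nat.add_sub_cancel, show l + (e + 3) = l + 3 + e by ring]
  exact h1

lemma card_zc (k : ℕ) : D (k + 1) ≤ ((mon (k + 3)).filter fun p => zc p.2 = 0).card := by
  classical
  have h1 : ((mon (k + 3)).filter fun p => ¬ zc p.2 = 0).card ≤ (mon k).card := by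
    refine Finset.card_le_card_of_injOn (fun p => (p.1, p.2.tail)) ?_ ?_
    · rintro ⟨m, u⟩ hp
      rw [Finset.mem_coe, Finset.mem_filter, mem_mon] at hp
      rw [Finset.mem_coe, mem_mon]
      cases u with
      | nil => exact absurd rfl hp.2
      | cons a u =>
        have ha : a = 0 := by
          by_contra h
          exact hp.2 (by simp [zc, h])
        subst ha
        have := hp.1
        unfold wt at this ⊢
        simp only [wl_cons, List.tail_cons] at this ⊢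
        omega
    · rintro ⟨m, u⟩ hp ⟨m', u'⟩ hp' h
      rw [Finset.mem_coe, Finset.mem_filter] at hp hp'
      simp only [Prod.mk.injEq] at h
      cases u with
      | nil => exact absurd rfl hp.2
      | cons a u =>
        cases u' with
        | nil => exact absurd rfl hp'.2
        | cons a' u' =>
          have ha : a = 0 := by
            by_contra h
            exact hp.2 (by simp [zc, h])
          have ha' : a' = 0 := by
            by_contra h
            exact hp'.2 (by simp [zc, h])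
          rw [List.tail_cons, List.tail_cons] at h
          rw [ha, ha', h.1, h.2]
  have h2 := Finset.card_filter_add_card_filter_not (s := mon (k + 3)) (fun p => zc p.2 = 0)
  rw [card_mon] at h1 h2
  rw [D_succ3] at h2
  omega

lemma finrank_Uk_zc (k : ℕ) : D (k + 1) ≤ finrank ℚ (Uk (fun p => zc p.2) (k + 3)) := by
  classical
  have h : Uk (fun p => zc p.2) (k + 3) = Finsupp.supported ℚ ℚ
      (↑((mon (k + 3)).filter fun p => zc p.2 = 0) : Set (ℕ × List ℕ)) := by
    unfold Uk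
    congr 1
    ext p
    simp only [Set.mem_ofPred_eq, Finset.coe_filter, mem_mon]
    exact and_comm
  rw [h, (Finsupp.supportedEquivFinsupp
    (↑((mon (k + 3)).filter fun p => zc p.2 = 0) : Set (ℕ × List ℕ)) :
      _ ≃ₗ[ℚ] (_ →₀ ℚ)).finrank_eq]
  have h1 : finrank ℚ (↥((mon (k + 3)).filter fun p => zc p.2 = 0) →₀ ℚ) =
      ((mon (k + 3)).filter fun p => zc p.2 = 0).card := by
    rw [Module.finrank_finsupp_self, Fintype.card_coe]
  exact (card_zc k).trans h1.ge

lemma growth_three (hψ : IsSurjection Z ψ) (hI : ∃ e, ∃ r ∈ Ik ψ e, r ≠ 0) :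
    ∃ e, ∀ k n, k + 3 = n → e ≤ n → D (n - e) + ii ψ k ≤ ii ψ n := by
  obtain ⟨e, he⟩ := growth hψ (fun p => zc p.2) (fun p q W h => zc_merge h)
    (single_mem (0, [0])) (lead_single (0, [0])) le_rfl hI
  refine ⟨e + 4, fun k n hk hn => ?_⟩
  obtain ⟨l, rfl⟩ : ∃ l, n = l + (e + 4) := ⟨n - (e + 4), by omega⟩
  have h1 := he (l + 4) k (by rw [show wt (0, [0]) = 3 from rfl]; omega)
  have h2 : D (l + 1 + 1) ≤ finrank ℚ (Uk (fun p => zc p.2) (l + 1 + 3)) := finrank_Uk_zc (l + 1)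
  have h3 : D l ≤ D (l + 1 + 1) := D_le_add_two l
  rw [Nat.add_sub_cancel, show l + (e + 4) = l + 4 + e by ring]
  have h4 : l + 1 + 3 = l + 4 := by ring
  rw [h4] at h2
  omega

/-- For all `m ≥ 2`. -/
theorem growth_all (hψ : IsSurjection Z ψ) (hI : ∃ e, ∃ r ∈ Ik ψ e, r ≠ 0) (m : ℕ) (hm : 2 ≤ m) :
    ∃ e, ∀ k n, k + m = n → e ≤ n → D (n - e) + ii ψ k ≤ ii ψ n := by
  by_cases h2 : m = 2
  · subst h2; exact growth_two hψ hI
  by_cases h3 : m = 3
  · subst h3; exact growth_three hψ hI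
  obtain ⟨e, he⟩ := growth_two hψ hI
  refine ⟨e, fun k n hk hn => ?_⟩
  have h4 := he (k + (m - 2)) n (by omega) hn
  have h5 : ∃ p : ℕ × List ℕ, wt p = m - 2 := by
    rcases Nat.even_or_odd' (m - 2) with ⟨c, hc | hc⟩
    · exact ⟨(c, []), by rw [hc]; rfl⟩
    · refine ⟨(c - 1, [0]), ?_⟩
      rw [hc]
      change 2 * (c - 1) + 3 = 2 * c + 1
      omega
  obtain ⟨p, hp⟩ := h5
  have h6 := mono_ii hψ (single_mem p) (by
    intro h0
    have := (lead_single p).1
    rw [h0] at this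
    simp at this) k
  rw [hp] at h6
  omega

end

end Pool.Agent.J4.H42.MZ
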